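import Pool.Agent.H933.LL.Stm4

/-!
# P_split: cut-off operators in the bicommutant, from P_cut (helper356)
-/

set_option autoImplicit false
set_option linter.unusedSectionVars false

open MeasureTheory Metric
open scoped Real Topology

namespace Pool.Agent.H356.LL

open Pool.Agent.H933.LL

variable {X : Type} [NormedAddCommGroup X] [NormedSpace ℂ X] [CompleteSpace X]

theorem isOpen_ann (l : ℂ) (r₁ r₂ : ℝ) : IsOpen (ann l r₁ r₂) := by
  have h1 : Continuous fun z : ℂ => ‖z - l‖ := by fun_prop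
  exact (isOpen_lt continuous_const h1).inter (isOpen_lt h1 continuous_const)

/-- the resolvent is a.e. strongly measurable for every measure on `ℂ` -/
theorem aesm_resolvent (T : X →L[ℂ] X) (μ : Measure ℂ) :
    AEStronglyMeasurable (resolvent T : ℂ → (X →L[ℂ] X)) μ := by
  have ho : IsOpen (resolventSet ℂ T) := spectrum.isOpen_resolventSet T
  have e : resolvent T = (resolventSet ℂ T).indicator (resolvent T) := by
    funext z
    by_cases hz : z ∈ resolventSet ℂ T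
    · rw [Set.indicator_of_mem hz]
    · rw [Set.indicator_of_notMem hz]
      exact Ring.inverse_non_unit _ hz
  rw [e, aestronglyMeasurable_indicator_iff ho.measurableSet]
  refine ContinuousOn.aestronglyMeasurable ?_ ho.measurableSet
  intro z hz
  exact (spectrum.hasDerivAt_resolvent_const_left hz).continuousAt.continuousWithinAt

/-- an operator commuting with `T` commutes with its resolvents -/
theorem comm_resolvent {T Q : X →L[ℂ] X} (hQ : Q * T = T * Q) (z : ℂ) :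
    Q * resolvent T z = resolvent T z * Q := by
  by_cases hz : z ∈ resolventSet ℂ T
  · have hu : IsUnit (algebraMap ℂ (X →L[ℂ] X) z - T) := hz
    have e : Q * (algebraMap ℂ (X →L[ℂ] X) z - T) = (algebraMap ℂ (X →L[ℂ] X) z - T) * Q := by
      rw [mul_sub, sub_mul, hQ, Algebra.commutes]
    have h1 : (algebraMap ℂ (X →L[ℂ] X) z - T) * resolvent T z = 1 :=
      Ring.mul_inverse_cancel _ hu
    have h2 : resolvent T z * (algebraMap ℂ (X →L[ℂ] X) z - T) = 1 :=
      Ring.inverse_mul_cancel _ hu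
    calc Q * resolvent T z
        = (resolvent T z * (algebraMap ℂ (X →L[ℂ] X) z - T)) * Q * resolvent T z := by
          rw [h2, one_mul]
      _ = resolvent T z * (Q * (algebraMap ℂ (X →L[ℂ] X) z - T)) * resolvent T z := by
          rw [e]; simp only [mul_assoc]
      _ = resolvent T z * Q * ((algebraMap ℂ (X →L[ℂ] X) z - T) * resolvent T z) := by
          simp only [mul_assoc]
      _ = resolvent T z * Q := by rw [h1, mul_one]
  · have : resolvent T z = 0 := Ring.inverse_non_unit _ hz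
    rw [this, mul_zero, zero_mul]

/-- `(w - T) (z - T)⁻¹ = (w - z) (z - T)⁻¹ + 1` off the spectrum -/
theorem sub_mul_resolvent {T : X →L[ℂ] X} {w z : ℂ} (hz : z ∉ spectrum ℂ T) :
    (w • (1 : X →L[ℂ] X) - T) * resolvent T z = (w - z) • resolvent T z + 1 := by
  have hz' : z ∈ resolventSet ℂ T := by
    by_contra h
    exact hz h
  have hu : IsUnit (algebraMap ℂ (X →L[ℂ] X) z - T) := hz'
  have h1 : (algebraMap ℂ (X →L[ℂ] X) z - T) * resolvent T z = 1 :=
    Ring.mul_inverse_cancel _ hu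
  rw [Algebra.algebraMap_eq_smul_one, sub_mul, smul_mul_assoc, one_mul] at h1
  rw [sub_mul, smul_mul_assoc, one_mul, sub_smul, ← h1]
  abel

/-- data of a density on the annulus -/
structure Dens (T : X →L[ℂ] X) (l : ℂ) (r₁ r₂ : ℝ) (h : ℂ → ℂ) : Prop where
  meas : AEStronglyMeasurable h (volume.restrict (ann l r₁ r₂))
  hint : IntegrableOn h (ann l r₁ r₂)
  int : IntegrableOn (fun z => ‖h z‖ * ‖resolvent T z‖) (ann l r₁ r₂)
  rep : ∀ g : ℂ → ℂ, DifferentiableOn ℂ g (ann l r₁ r₂) → (∃ C : ℝ, ∀ z ∈ ann l r₁ r₂, ‖g z‖ ≤ C) →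
      ∫ z in ann l r₁ r₂, h z * g z = (2 * π * Complex.I)⁻¹ * ∮ z in C(l, (r₁ + r₂) / 2), g z

theorem Dens.int' {T : X →L[ℂ] X} {l : ℂ} {r₁ r₂ : ℝ} {h : ℂ → ℂ} (H : Dens T l r₁ r₂ h) :
    IntegrableOn (fun z => h z • resolvent T z) (ann l r₁ r₂) := by
  refine Integrable.mono H.int (H.meas.smul (aesm_resolvent T _)) ?_
  refine Filter.Eventually.of_forall fun z => ?_
  rw [norm_smul, norm_mul, norm_norm, norm_norm]

/-- the operator `∫ h(z) (z - w)⁻¹ (z - T)⁻¹ dA(z)` -/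
noncomputable def Bop (T : X →L[ℂ] X) (l : ℂ) (r₁ r₂ : ℝ) (h : ℂ → ℂ) (w : ℂ) : X →L[ℂ] X :=
  ∫ z in ann l r₁ r₂, (z - w)⁻¹ • (h z • resolvent T z)

theorem aesm_inv (w : ℂ) (μ : Measure ℂ) : AEStronglyMeasurable (fun z : ℂ => (z - w)⁻¹) μ :=
  (measurable_id.sub measurable_const).inv.aestronglyMeasurable

theorem Dens.int_inv {T : X →L[ℂ] X} {l : ℂ} {r₁ r₂ : ℝ} {h : ℂ → ℂ} (H : Dens T l r₁ r₂ h)
    {w : ℂ} {δ : ℝ} (hδ : 0 < δ) (hw : ∀ z ∈ ann l r₁ r₂, δ ≤ ‖z - w‖) :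
    IntegrableOn (fun z => (z - w)⁻¹ • (h z • resolvent T z)) (ann l r₁ r₂) := by
  refine H.int'.bdd_smul δ⁻¹ (aesm_inv w _) ?_
  filter_upwards [ae_restrict_mem (isOpen_ann l r₁ r₂).measurableSet] with z hz
  rw [norm_inv]
  exact inv_anti₀ hδ (hw z hz)

theorem Dens.int_inv0 {T : X →L[ℂ] X} {l : ℂ} {r₁ r₂ : ℝ} {h : ℂ → ℂ} (H : Dens T l r₁ r₂ h)
    {w : ℂ} {δ : ℝ} (hδ : 0 < δ) (hw : ∀ z ∈ ann l r₁ r₂, δ ≤ ‖z - w‖) :
    IntegrableOn (fun z => h z * (z - w)⁻¹) (ann l r₁ r₂) := by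
  have hb : ∀ᵐ z ∂(volume.restrict (ann l r₁ r₂)), ‖(z - w)⁻¹‖ ≤ δ⁻¹ := by
    filter_upwards [ae_restrict_mem (isOpen_ann l r₁ r₂).measurableSet] with z hz
    rw [norm_inv]
    exact inv_anti₀ hδ (hw z hz)
  have := (H.hint : Integrable h (volume.restrict (ann l r₁ r₂))).bdd_mul (aesm_inv w _) hb
  refine this.congr ?_
  filter_upwards with z
  exact mul_comm _ _

/-- holomorphy of Cauchy type integrals -/
theorem cauchy_diff {E : Type} [NormedAddCommGroup E] [NormedSpace ℂ E]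
    (S : Set ℂ) (hS : IsOpen S) (u : ℂ → E) (hu : IntegrableOn u S)
    {w : ℂ} {δ : ℝ} (hδ : 0 < δ) (hw : ∀ z ∈ S, δ ≤ ‖z - w‖) :
    DifferentiableAt ℂ (fun w' => ∫ z in S, (z - w')⁻¹ • u z) w := by
  have hδ2 : 0 < δ / 2 := by linarith
  have hw' : ∀ w' ∈ ball w (δ / 2), ∀ z ∈ S, δ / 2 ≤ ‖z - w'‖ := by
    intro w' hw'' z hz
    have h1 := hw z hz
    rw [mem_ball_iff_norm] at hw''
    have h2 : ‖z - w‖ ≤ ‖z - w'‖ + ‖w' - w‖ := by
      have : z - w = (z - w') + (w' - w) := by ring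
      rw [this]
      exact norm_add_le _ _
    linarith
  have hiw : Integrable (fun z => (z - w)⁻¹ • u z) (volume.restrict S) := by
    refine Integrable.bdd_smul hu δ⁻¹ (aesm_inv w _) ?_
    filter_upwards [ae_restrict_mem hS.measurableSet] with z hz
    rw [norm_inv]
    exact inv_anti₀ hδ (hw z hz)
  have hb : ∀ᵐ z ∂(volume.restrict S), ∀ w' ∈ ball w (δ / 2),
      ‖((z - w')⁻¹ ^ 2) • u z‖ ≤ ((δ / 2)⁻¹ ^ 2) * ‖u z‖ := by
    filter_upwards [ae_restrict_mem hS.measurableSet] with z hz w' hw''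
    rw [norm_smul, norm_pow, norm_inv]
    gcongr
    exact hw' w' hw'' z hz
  have hd : ∀ᵐ z ∂(volume.restrict S), ∀ w' ∈ ball w (δ / 2),
      HasDerivAt (fun w' : ℂ => (z - w')⁻¹ • u z) (((z - w')⁻¹ ^ 2) • u z) w' := by
    filter_upwards [ae_restrict_mem hS.measurableSet] with z hz w' hw''
    have hne : z - w' ≠ 0 := by
      intro h0
      have := hw' w' hw'' z hz
      rw [h0, norm_zero] at this
      linarith
    have h1 : HasDerivAt (fun w' : ℂ => (z - w')⁻¹) ((z - w')⁻¹ ^ 2) w' := by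
      have h2 := ((hasDerivAt_id w').const_sub z).fun_inv hne
      have e : (-(-1 : ℂ)) / (z - id w') ^ 2 = (z - w')⁻¹ ^ 2 := by
        rw [neg_neg, inv_pow, one_div]
        rfl
      rw [e] at h2
      exact h2
    exact h1.smul_const _
  have hm : ∀ᶠ w' in 𝓝 w, AEStronglyMeasurable (fun z => (z - w')⁻¹ • u z)
      (volume.restrict S) :=
    Filter.Eventually.of_forall fun w' => (aesm_inv w' _).smul hu.aestronglyMeasurable
  have hm' : AEStronglyMeasurable (fun z => ((z - w)⁻¹ ^ 2) • u z) (volume.restrict S) :=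
    ((aesm_inv w _).pow 2).smul hu.aestronglyMeasurable
  have hbi : Integrable (fun z => ((δ / 2)⁻¹ ^ 2) * ‖u z‖) (volume.restrict S) :=
    Integrable.const_mul hu.norm _
  have key := hasDerivAt_integral_of_dominated_loc_of_deriv_le
    (μ := volume.restrict S) (𝕜 := ℂ) (s := ball w (δ / 2)) (x₀ := w)
    (F := fun w' z => (z - w')⁻¹ • u z)
    (F' := fun w' z => ((z - w')⁻¹ ^ 2) • u z)
    (bound := fun z => ((δ / 2)⁻¹ ^ 2) * ‖u z‖)
    (ball_mem_nhds w hδ2) hm hiw hm' hb hbi hd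
  exact key.2.differentiableAt

/-- holomorphy of `Bop` -/
theorem Dens.diff {T : X →L[ℂ] X} {l : ℂ} {r₁ r₂ : ℝ} {h : ℂ → ℂ} (H : Dens T l r₁ r₂ h)
    {w : ℂ} {δ : ℝ} (hδ : 0 < δ) (hw : ∀ z ∈ ann l r₁ r₂, δ ≤ ‖z - w‖) :
    DifferentiableAt ℂ (Bop T l r₁ r₂ h) w :=
  cauchy_diff (ann l r₁ r₂) (isOpen_ann l r₁ r₂) _ H.int' hδ hw

/-- the equation of `Bop` -/
theorem Dens.eq {T : X →L[ℂ] X} {l : ℂ} {r₁ r₂ : ℝ} {h : ℂ → ℂ} (H : Dens T l r₁ r₂ h)
    (hσ : volume (spectrum ℂ T) = 0)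
    {w : ℂ} {δ : ℝ} (hδ : 0 < δ) (hw : ∀ z ∈ ann l r₁ r₂, δ ≤ ‖z - w‖) :
    (w • (1 : X →L[ℂ] X) - T) * Bop T l r₁ r₂ h w =
      (∫ z in ann l r₁ r₂, h z * (z - w)⁻¹) • (1 : X →L[ℂ] X) -
        ∫ z in ann l r₁ r₂, h z • resolvent T z := by
  have hi1 := H.int_inv hδ hw
  have hi0 := H.int_inv0 hδ hw
  unfold Bop
  have e0 : (∫ z in ann l r₁ r₂, h z * (z - w)⁻¹) • (1 : X →L[ℂ] X) =
      ∫ z in ann l r₁ r₂, (h z * (z - w)⁻¹) • (1 : X →L[ℂ] X) :=
    (integral_smul_const (fun z => h z * (z - w)⁻¹) (1 : X →L[ℂ] X)).symm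
  have hi2 : IntegrableOn (fun z => (h z * (z - w)⁻¹) • (1 : X →L[ℂ] X)) (ann l r₁ r₂) :=
    Integrable.smul_const hi0 _
  rw [← integral_const_mul_of_integrable hi1, e0, ← integral_sub hi2 H.int']
  refine integral_congr_ae ?_
  have hae : ∀ᵐ z ∂(volume.restrict (ann l r₁ r₂)), z ∉ spectrum ℂ T := by
    rw [ae_iff]
    refine measure_mono_null (t := spectrum ℂ T) ?_ ?_
    · intro z hz
      simpa using hz
    · exact le_antisymm ((Measure.restrict_apply_le _ _).trans hσ.le) zero_le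
  filter_upwards [hae, ae_restrict_mem (isOpen_ann l r₁ r₂).measurableSet] with z hz hz2
  have hne : z - w ≠ 0 := by
    intro h0
    have := hw z hz2
    rw [h0, norm_zero] at this
    linarith
  have hc : (z - w)⁻¹ * (w - z) = -1 := by
    rw [← neg_sub z w, mul_neg, inv_mul_cancel₀ hne]
  rw [mul_smul_comm, mul_smul_comm, sub_mul_resolvent hz, smul_add, smul_add, smul_smul,
    smul_smul, smul_smul]
  have e1 : (z - w)⁻¹ * h z * (w - z) = - h z := by
    rw [mul_comm (z - w)⁻¹, mul_assoc, hc, mul_neg_one]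
  rw [mul_comm (z - w)⁻¹ (h z)] at e1 ⊢
  rw [e1, neg_smul]
  abel

theorem Dens.comm {T : X →L[ℂ] X} {l : ℂ} {r₁ r₂ : ℝ} {h : ℂ → ℂ} (H : Dens T l r₁ r₂ h)
    (Q : X →L[ℂ] X) (hQ : Q * T = T * Q) :
    Q * (∫ z in ann l r₁ r₂, h z • resolvent T z) =
      (∫ z in ann l r₁ r₂, h z • resolvent T z) * Q := by
  have hi := H.int'
  rw [← integral_const_mul_of_integrable hi, ← integral_mul_const_of_integrable hi]
  refine integral_congr_ae (Filter.Eventually.of_forall fun z => ?_)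
  show Q * (h z • resolvent T z) = (h z • resolvent T z) * Q
  rw [mul_smul_comm, smul_mul_assoc, comm_resolvent hQ]

theorem dist_out {l w z : ℂ} {r₁ r₂ : ℝ} (hw : r₂ < ‖w - l‖) (hz : z ∈ ann l r₁ r₂) :
    ‖w - l‖ - r₂ ≤ ‖z - w‖ := by
  have h1 : ‖w - l‖ ≤ ‖w - z‖ + ‖z - l‖ := by
    have : w - l = (w - z) + (z - l) := by ring
    rw [this]; exact norm_add_le _ _
  rw [norm_sub_rev w z] at h1
  have := hz.2
  linarith

theorem dist_in {l w z : ℂ} {r₁ r₂ : ℝ} (hw : ‖w - l‖ < r₁) (hz : z ∈ ann l r₁ r₂) :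
    r₁ - ‖w - l‖ ≤ ‖z - w‖ := by
  have h1 : ‖z - l‖ ≤ ‖z - w‖ + ‖w - l‖ := by
    have : z - l = (z - w) + (w - l) := by ring
    rw [this]; exact norm_add_le _ _
  have := hz.1
  linarith

theorem Dens.rep_inv {T : X →L[ℂ] X} {l : ℂ} {r₁ r₂ : ℝ} {h : ℂ → ℂ} (H : Dens T l r₁ r₂ h)
    {w : ℂ} {δ : ℝ} (hδ : 0 < δ) (hw : ∀ z ∈ ann l r₁ r₂, δ ≤ ‖z - w‖) :
    ∫ z in ann l r₁ r₂, h z * (z - w)⁻¹ =
      (2 * π * Complex.I)⁻¹ * ∮ z in C(l, (r₁ + r₂) / 2), (z - w)⁻¹ := by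
  apply H.rep
  · intro z hz
    have hne : z - w ≠ 0 := by
      intro h0
      have := hw z hz
      rw [h0, norm_zero] at this
      linarith
    exact ((differentiableAt_id.sub_const w).inv hne).differentiableWithinAt
  · refine ⟨δ⁻¹, fun z hz => ?_⟩
    rw [norm_inv]
    exact inv_anti₀ hδ (hw z hz)

theorem two_pi_I_ne : (2 * π * Complex.I : ℂ) ≠ 0 := by
  simp [Real.pi_ne_zero, Complex.I_ne_zero]

theorem circ_in {l w : ℂ} {r₁ r₂ : ℝ} (hr : r₁ < r₂) (hw : ‖w - l‖ < r₁) :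
    (2 * π * Complex.I)⁻¹ * ∮ z in C(l, (r₁ + r₂) / 2), (z - w)⁻¹ = 1 := by
  rw [circleIntegral.integral_sub_inv_of_mem_ball, inv_mul_cancel₀ two_pi_I_ne]
  rw [mem_ball_iff_norm]
  linarith

theorem circ_out {l w : ℂ} {r₁ r₂ : ℝ} (hr1 : 0 < r₁) (hr : r₁ < r₂) (hw : r₂ < ‖w - l‖) :
    (2 * π * Complex.I)⁻¹ * ∮ z in C(l, (r₁ + r₂) / 2), (z - w)⁻¹ = 0 := by
  have hne : ∀ z ∈ closedBall l ((r₁ + r₂) / 2), z - w ≠ 0 := by
    intro z hz h0
    rw [mem_closedBall_iff_norm, sub_eq_zero.mp h0] at hz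
    linarith
  rw [Complex.circleIntegral_eq_zero_of_differentiable_on_off_countable (by linarith)
    Set.countable_empty, mul_zero]
  · intro z hz
    exact ((continuousAt_id.sub continuousAt_const).inv₀ (hne z hz)).continuousWithinAt
  · intro z hz
    exact (differentiableAt_id.sub_const w).inv (hne z (ball_subset_closedBall hz.1))

theorem split_core {T : X →L[ℂ] X} {l : ℂ} {r₁ r₂ : ℝ} {h : ℂ → ℂ} (H : Dens T l r₁ r₂ h)
    (hσ : volume (spectrum ℂ T) = 0) (hr1 : 0 < r₁) (hr : r₁ < r₂) :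
    ∃ A : X →L[ℂ] X, (∀ Q : X →L[ℂ] X, Q * T = T * Q → Q * A = A * Q) ∧
    ∀ x : X, LocSpec T (closedBall l r₂) (A x) ∧ LocSpec T (ball l r₁)ᶜ (x - A x) := by
  refine ⟨∫ z in ann l r₁ r₂, h z • resolvent T z, H.comm, fun x => ⟨?_, ?_⟩⟩
  · refine ⟨fun w => -(Bop T l r₁ r₂ h w x), ?_, ?_⟩
    · intro w hw
      rw [Set.mem_compl_iff, mem_closedBall_iff_norm, not_le] at hw
      have hd := H.diff (sub_pos.mpr hw) (fun z hz => dist_out hw hz)
      exact ((hd.clm_apply (differentiableAt_const x)).neg).differentiableWithinAt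
    · intro w hw
      rw [mem_closedBall_iff_norm, not_le] at hw
      have he := H.eq hσ (sub_pos.mpr hw) (fun z hz => dist_out hw hz)
      rw [H.rep_inv (sub_pos.mpr hw) (fun z hz => dist_out hw hz), circ_out hr1 hr hw,
        zero_smul, zero_sub] at he
      have he2 := DFunLike.congr_fun he x
      simp only [mul_apply_eq_comp, sub_apply,
        smul_apply, one_apply_eq_self,
        neg_apply] at he2
      rw [smul_neg, map_neg, sub_neg_eq_add, ← neg_inj, ← he2]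
      abel
  · refine ⟨fun w => Bop T l r₁ r₂ h w x, ?_, ?_⟩
    · intro w hw
      rw [compl_compl, mem_ball_iff_norm] at hw
      have hd := H.diff (sub_pos.mpr hw) (fun z hz => dist_in hw hz)
      exact (hd.clm_apply (differentiableAt_const x)).differentiableWithinAt
    · intro w hw
      rw [Set.notMem_compl_iff, mem_ball_iff_norm] at hw
      have he := H.eq hσ (sub_pos.mpr hw) (fun z hz => dist_in hw hz)
      rw [H.rep_inv (sub_pos.mpr hw) (fun z hz => dist_in hw hz), circ_in hr hw,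
        one_smul] at he
      have he2 := DFunLike.congr_fun he x
      simp only [mul_apply_eq_comp, sub_apply,
        smul_apply, one_apply_eq_self] at he2
      exact he2

theorem p_split (hcut : P_cut) : P_split := by
  intro X _ _ _ T q hq hT l r₁ r₂ hr1 hr
  rcases subsingleton_or_nontrivial X with hX | hX
  · refine ⟨0, fun Q _ => by rw [mul_zero, zero_mul], fun x => ⟨⟨fun _ => 0, ?_, ?_⟩,
      ⟨fun _ => 0, ?_, ?_⟩⟩⟩
    · exact differentiableOn_const _
    · intro z _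
      exact Subsingleton.elim _ _
    · exact differentiableOn_const _
    · intro z _
      exact Subsingleton.elim _ _
  · set R := ‖l‖ + r₂ + ‖T‖ + 1 with hR
    have hT0 := norm_nonneg T
    have hl0 := norm_nonneg l
    have hR0 : 0 < R := by rw [hR]; linarith
    have hsub : ann l r₁ r₂ ⊆ ball (0 : ℂ) R := by
      intro z hz
      rw [mem_ball_zero_iff, hR]
      have h1 : ‖z‖ ≤ ‖z - l‖ + ‖l‖ := by
        have : z = (z - l) + l := by ring
        conv_lhs => rw [this]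
        exact norm_add_le _ _
      have := hz.2
      linarith
    have hlow : ∀ᵐ z ∂(volume.restrict (ann l r₁ r₂)), R⁻¹ ≤ ‖resolvent T z‖ := by
      have hae : ∀ᵐ z ∂(volume.restrict (ann l r₁ r₂)), z ∉ spectrum ℂ T := by
        rw [ae_iff]
        refine measure_mono_null (t := spectrum ℂ T) ?_ ?_
        · intro z hz
          simpa using hz
        · exact le_antisymm ((Measure.restrict_apply_le _ _).trans hT.1.le) zero_le
      filter_upwards [hae, ae_restrict_mem (isOpen_ann l r₁ r₂).measurableSet] with z hz hz2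
      have hz' : z ∈ resolventSet ℂ T := by
        by_contra h
        exact hz h
      have hu : IsUnit (algebraMap ℂ (X →L[ℂ] X) z - T) := hz'
      have h1 : (algebraMap ℂ (X →L[ℂ] X) z - T) * resolvent T z = 1 :=
        Ring.mul_inverse_cancel _ hu
      have h2 : (1 : ℝ) ≤ ‖algebraMap ℂ (X →L[ℂ] X) z - T‖ * ‖resolvent T z‖ := by
        have h3 := norm_mul_le (algebraMap ℂ (X →L[ℂ] X) z - T) (resolvent T z)
        rw [h1, norm_one] at h3
        exact h3
      have h4 : ‖algebraMap ℂ (X →L[ℂ] X) z - T‖ ≤ R := by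
        refine (norm_sub_le _ _).trans ?_
        rw [norm_algebraMap']
        have h5 : ‖z‖ ≤ ‖z - l‖ + ‖l‖ := by
          have : z = (z - l) + l := by ring
          conv_lhs => rw [this]
          exact norm_add_le _ _
        have := hz2.2
        rw [hR]
        linarith
      rw [inv_le_iff_one_le_mul₀' hR0]
      exact h2.trans (mul_le_mul_of_nonneg_right h4 (norm_nonneg _))
    obtain ⟨h, h1, h2, h3, h4⟩ := hcut (fun z => ‖resolvent T z‖) l r₁ r₂ q R⁻¹ hr1 hr hq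
      (inv_pos.mpr hR0) (aesm_resolvent T _).norm.aemeasurable hlow ((hT.2 R).mono_set hsub)
    exact split_core ⟨h1, h2, h3, h4⟩ hT.1 hr1 hr

end Pool.Agent.H356.LL
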